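import Pool.Agent.Ff3.Red

/-!
Many classes modulo the fourth power of an irreducible polynomial.
-/

set_option autoImplicit false

namespace Pool.Agent.Ff3

open Polynomial Pool.Agent.Ff2

variable {K : Type} [Field K] [Fintype K]

/-- A class whose irreducible members have large degree. -/
theorem key3 {k : ℕ} (hK : Fintype.card K = 2 ^ k) (hk : Odd k)
    {L : ℕ} {g w : K[X]} (hL1 : 1 ≤ L) (hg : g.Monic) (hgo : Odd g.natDegree) (hwL : wL K L ∣ w)
    (hw0 : w ≠ 0) (hcop : IsCoprime g w) (hdeg : w.natDegree + L + 1 ≤ g.natDegree) {P : K[X]}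
    (hP : Irreducible P) (hdv : g ^ 4 ∣ P - w ^ 4) :
    2 * L + 2 + 4 * g.natDegree ≤ P.natDegree := by
  obtain ⟨f, hf⟩ := hdv
  have hPe : P = w ^ 4 + f * g ^ 4 := by
    rw [mul_comm f, ← hf]
    ring
  have h1 := red3 hK hk hL1 hg hgo hwL hw0 hcop hdeg f
  have h2 : 2 * L + 2 ≤ f.natDegree := by
    by_contra h3
    exact h1 (by omega) (hPe ▸ hP)
  have hf0 : f ≠ 0 := by
    rintro rfl
    rw [natDegree_zero] at h2
    omega
  have h3 : (f * g ^ 4).natDegree = f.natDegree + 4 * g.natDegree := by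
    rw [natDegree_mul hf0 (hg.pow 4).ne_zero, hg.natDegree_pow]
  have h4 : (w ^ 4).natDegree = 4 * w.natDegree := natDegree_pow w 4
  rw [hPe, natDegree_add_eq_right_of_natDegree_lt (by omega), h3]
  omega

theorem coprime_of_lt {g w : K[X]} (hg : Irreducible g) (hw0 : w ≠ 0)
    (h : w.natDegree < g.natDegree) : IsCoprime g w := by
  rw [(hg.coprime_iff_not_dvd)]
  intro h1
  have := natDegree_le_of_dvd h1 hw0
  omega

/-- the monic polynomials of degree `s` -/
noncomputable def mpol (K : Type) [Field K] (s : ℕ) (v : Fin s → K) : K[X] :=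
  X ^ s + ((degreeLTEquiv K s).symm v : K[X])

theorem mpol_inj (s : ℕ) : Function.Injective (mpol K s) := by
  intro v v' h
  have h1 : ((degreeLTEquiv K s).symm v : K[X]) = ((degreeLTEquiv K s).symm v' : K[X]) :=
    add_left_cancel h
  exact (degreeLTEquiv K s).symm.injective (Subtype.ext h1)

theorem mpol_deg (s : ℕ) (v : Fin s → K) : (mpol K s v).Monic ∧ (mpol K s v).natDegree = s := by
  have h1 : (((degreeLTEquiv K s).symm v : K[X])).degree < s :=
    mem_degreeLT.1 ((degreeLTEquiv K s).symm v).2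
  have h2 : (mpol K s v).Monic := monic_X_pow_add h1
  refine ⟨h2, ?_⟩
  have h3 : (mpol K s v).degree = s := by
    unfold mpol
    rw [degree_add_eq_left_of_degree_lt (by rwa [degree_X_pow]), degree_X_pow]
  exact natDegree_eq_of_degree_eq_some h3

theorem pow_four_inj [CharP K 2] : Function.Injective (fun p : K[X] => p ^ 4) := by
  have : Fact (Nat.Prime 2) := ⟨Nat.prime_two⟩
  intro a b h
  have h1 := frobenius_inj K[X] 2
  apply h1
  apply h1
  rw [frobenius_def, frobenius_def, frobenius_def, frobenius_def, ← pow_mul, ← pow_mul]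
  exact h

/-- **Many classes modulo the fourth power of an irreducible polynomial.** -/
theorem cls {k : ℕ} (hK : Fintype.card K = 2 ^ k) (hk : Odd k) {L s : ℕ} {g : K[X]}
    (hL1 : 1 ≤ L) (hg : g.Monic) (hgi : Irreducible g) (hgo : Odd g.natDegree)
    (hdeg : (wL K L).natDegree + s + L + 1 ≤ g.natDegree) :
    ∃ C : Finset K[X], C.card = Fintype.card K ^ s ∧ ∀ c ∈ C,
      c.natDegree < (g ^ 4).natDegree ∧ IsCoprime c (g ^ 4) ∧
      ∀ P : K[X], Irreducible P → g ^ 4 ∣ P - c → 2 * L + 2 + 4 * g.natDegree ≤ P.natDegree := by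
  classical
  have hchar : CharP K 2 := red_charP K k hK
  have hw := (deg K L).1
  have hinj : Function.Injective (fun v : Fin s → K => (wL K L * mpol K s v) ^ 4) := by
    intro v v' h
    have h1 := pow_four_inj (K := K) h
    exact mpol_inj s (mul_left_cancel₀ hw.ne_zero h1)
  refine ⟨Finset.univ.image (fun v : Fin s → K => (wL K L * mpol K s v) ^ 4), ?_, ?_⟩
  · rw [Finset.card_image_of_injective _ hinj, Finset.card_univ, Fintype.card_fun,
      Fintype.card_fin]
  · intro c hc
    obtain ⟨v, _, rfl⟩ := Finset.mem_image.1 hc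
    obtain ⟨h1, h2⟩ := mpol_deg s v
    have h3 : (wL K L * mpol K s v).Monic := hw.mul h1
    have h4 : (wL K L * mpol K s v).natDegree = (wL K L).natDegree + s := by
      rw [hw.natDegree_mul h1, h2]
    have h5 : IsCoprime g (wL K L * mpol K s v) :=
      coprime_of_lt hgi h3.ne_zero (by omega)
    refine ⟨?_, h5.symm.pow, fun P hP hdv => ?_⟩
    · rw [natDegree_pow, natDegree_pow, h4]
      omega
    · exact key3 hK hk hL1 hg hgo (dvd_mul_right _ _) h3.ne_zero h5 (by omega) hP hdv

end Pool.Agent.Ff3
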