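import Pool.Agent.Ff3.Main

/-!
The statement to be handed in.
-/

set_option autoImplicit false

namespace Pool.Agent.Ff3

open Polynomial

theorem fin3 (F : Type) [Field F] [Fintype F] (k : ℕ) (hk : Odd k)
    (hF : Fintype.card F = 2 ^ k) (ε : ℝ) (hε : 0 < ε) (hε1 : ε < 1) :
    ∃ N₀ : ℕ, ∀ g : F[X], g.Monic → Irreducible g → Odd g.natDegree → N₀ ≤ g.natDegree →
      ∃ C : Finset F[X], ((Fintype.card F : ℝ) ^ (g ^ 4).natDegree) ^ (ε / 5) ≤ C.card ∧
        ∀ c ∈ C, c.natDegree < (g ^ 4).natDegree ∧ IsCoprime c (g ^ 4) ∧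
          ∀ P : F[X], Irreducible P → g ^ 4 ∣ P - c → ∀ j : ℕ,
            (Fintype.card F : ℝ) ^ j ≤
              (1 - ε) * ((Fintype.card F : ℝ) - 1) * (g ^ 4).natDegree / 4 →
            (Fintype.card F : ℝ) ^ (g ^ 4).natDegree * ((Fintype.card F : ℝ) ^ j) ^ 2 ≤
              (Fintype.card F : ℝ) ^ P.natDegree :=
  main3 hF hk hε hε1

end Pool.Agent.Ff3
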