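import Pool.Agent.Ff3.Cls

/-!
Many classes without small irreducible polynomials modulo the fourth power of every irreducible
polynomial of odd degree.
-/

set_option autoImplicit false

namespace Pool.Agent.Ff3

open Polynomial Pool.Agent.Ff2

theorem sq_le_pow (j : ℕ) : j ^ 2 ≤ 4 * 2 ^ j := by
  have h1 : j / 2 + 1 ≤ 2 ^ (j / 2) := Nat.lt_two_pow_self
  have h2 : j ≤ 2 * 2 ^ (j / 2) := by omega
  calc j ^ 2 ≤ (2 * 2 ^ (j / 2)) ^ 2 := Nat.pow_le_pow_left h2 2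
    _ = 4 * 2 ^ (2 * (j / 2)) := by rw [mul_pow, ← pow_mul, mul_comm (j / 2) 2]; norm_num
    _ ≤ 4 * 2 ^ j := Nat.mul_le_mul_left _ (Nat.pow_le_pow_right (by norm_num) (by omega))

variable {K : Type} [Field K] [Fintype K]

theorem main3 {k : ℕ} (hK : Fintype.card K = 2 ^ k) (hk : Odd k) {ε : ℝ} (hε : 0 < ε)
    (hε1 : ε < 1) : ∃ N₀ : ℕ, ∀ g : K[X], g.Monic → Irreducible g → Odd g.natDegree →
      N₀ ≤ g.natDegree → ∃ C : Finset K[X],
        ((Fintype.card K : ℝ) ^ (g ^ 4).natDegree) ^ (ε / 5) ≤ C.card ∧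
        ∀ c ∈ C, c.natDegree < (g ^ 4).natDegree ∧ IsCoprime c (g ^ 4) ∧
          ∀ P : K[X], Irreducible P → g ^ 4 ∣ P - c → ∀ j : ℕ,
            (Fintype.card K : ℝ) ^ j ≤
              (1 - ε) * ((Fintype.card K : ℝ) - 1) * (g ^ 4).natDegree / 4 →
            (Fintype.card K : ℝ) ^ (g ^ 4).natDegree * ((Fintype.card K : ℝ) ^ j) ^ 2 ≤
              (Fintype.card K : ℝ) ^ P.natDegree := by
  have hq := FinP.card_two (K := K) k hK hk
  have hq' : (2 : ℝ) ≤ Fintype.card K := by exact_mod_cast hq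
  obtain ⟨N₀, hN1, hN2⟩ : ∃ N₀ : ℕ, 100 * Fintype.card K / ε ^ 2 ≤ N₀ ∧
      (Fintype.card K : ℝ) ^ 2 / (1 - ε) ≤ N₀ := by
    refine ⟨max (⌈100 * Fintype.card K / ε ^ 2⌉₊) (⌈(Fintype.card K : ℝ) ^ 2 / (1 - ε)⌉₊), ?_, ?_⟩
    · exact (Nat.le_ceil _).trans (by exact_mod_cast le_max_left _ _)
    · exact (Nat.le_ceil _).trans (by exact_mod_cast le_max_right _ _)
  refine ⟨N₀, fun g hg hgi hgo hgN => ?_⟩
  have hm : (g ^ 4).natDegree = 4 * g.natDegree := natDegree_pow g 4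
  obtain ⟨N, hN⟩ : ∃ N, g.natDegree = N := ⟨_, rfl⟩
  rw [hN] at hgo hgN hm
  have hN3 : (N₀ : ℝ) ≤ N := by exact_mod_cast hgN
  have e0 : 0 < 1 - ε := by linarith
  have hN4 : 100 * Fintype.card K ≤ ε ^ 2 * N := by
    have := (div_le_iff₀ (by positivity)).1 hN1
    nlinarith [sq_nonneg ε]
  have hN5 : (Fintype.card K : ℝ) ^ 2 ≤ (1 - ε) * N := by
    have := (div_le_iff₀ e0).1 hN2
    nlinarith
  -- the largest power
  have hex : ∃ j : ℕ, (1 - ε) * ((Fintype.card K : ℝ) - 1) * N < (Fintype.card K : ℝ) ^ j :=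
    pow_unbounded_of_one_lt _ (by linarith)
  classical
  obtain ⟨J, hJ⟩ : ∃ J, J = Nat.find hex := ⟨_, rfl⟩
  have hJ1 : (1 - ε) * ((Fintype.card K : ℝ) - 1) * N < (Fintype.card K : ℝ) ^ J :=
    hJ ▸ Nat.find_spec hex
  have hJ2 : ∀ i < J, (Fintype.card K : ℝ) ^ i ≤ (1 - ε) * ((Fintype.card K : ℝ) - 1) * N :=
    fun i hi => not_lt.1 (Nat.find_min hex (hJ ▸ hi))
  have hJ3 : 2 < J := by
    by_contra h
    have h1 : (Fintype.card K : ℝ) ^ J ≤ (Fintype.card K : ℝ) ^ 2 :=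
      pow_le_pow_right₀ (by linarith) (by omega)
    have h2 : (1 - ε) * N * 1 ≤ (1 - ε) * N * ((Fintype.card K : ℝ) - 1) :=
      mul_le_mul_of_nonneg_left (by linarith) (by positivity)
    nlinarith
  obtain ⟨L, rfl⟩ : ∃ L, J = L + 2 := ⟨J - 2, by omega⟩
  have hL1 : 1 ≤ L := by omega
  have hx := hJ2 (L + 1) (by omega)
  have hDL := (deg K L).2
  -- the number of free coefficients
  have hL2 : ((L : ℝ) + 1) ≤ ε / 5 * N := by
    have h1 : (((L + 1 : ℕ) : ℝ)) ^ 2 ≤ 4 * 2 ^ (L + 1) := by exact_mod_cast sq_le_pow (L + 1)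
    have h2 : (2 : ℝ) ^ (L + 1) ≤ (Fintype.card K : ℝ) ^ (L + 1) :=
      pow_le_pow_left₀ (by norm_num) hq' _
    have h3 : (1 - ε) * ((Fintype.card K : ℝ) - 1) * N ≤ Fintype.card K * N := by
      refine mul_le_mul_of_nonneg_right ?_ (by positivity)
      nlinarith
    have h4 : ((L : ℝ) + 1) ^ 2 ≤ (ε / 5 * N) ^ 2 := by
      push_cast at h1
      have h5 : 4 * (Fintype.card K * (N : ℝ)) ≤ (ε / 5 * N) ^ 2 := by
        have h6 : 100 * Fintype.card K * (N : ℝ) ≤ ε ^ 2 * N * N :=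
          mul_le_mul_of_nonneg_right hN4 (by positivity)
        nlinarith
      linarith
    exact (pow_le_pow_iff_left₀ (by positivity) (by positivity) (by norm_num)).1 h4
  have hDr : ((wL K L).natDegree : ℝ) * ((Fintype.card K : ℝ) - 1) + Fintype.card K =
      (Fintype.card K : ℝ) ^ (L + 1) := by
    have : ((Fintype.card K - 1 : ℕ) : ℝ) = (Fintype.card K : ℝ) - 1 := by
      rw [Nat.cast_sub (by omega), Nat.cast_one]
    rw [← this]
    exact_mod_cast hDL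
  have hD1 : ((wL K L).natDegree : ℝ) ≤ (1 - ε) * N := by
    have h1 : ((wL K L).natDegree : ℝ) * ((Fintype.card K : ℝ) - 1) ≤
        (1 - ε) * N * ((Fintype.card K : ℝ) - 1) := by linarith
    exact le_of_mul_le_mul_right h1 (by linarith)
  have hsum : (wL K L).natDegree + L + 1 ≤ N := by
    have : ((wL K L).natDegree : ℝ) + L + 1 ≤ N := by nlinarith
    exact_mod_cast this
  obtain ⟨s, hs⟩ : ∃ s, (wL K L).natDegree + s + L + 1 = N :=
    ⟨N - ((wL K L).natDegree + L + 1), by omega⟩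
  have hs2 : 4 * (ε / 5) * N ≤ s := by
    have : ((wL K L).natDegree : ℝ) + s + L + 1 = N := by exact_mod_cast hs
    linarith
  obtain ⟨C, hC, hC2⟩ := cls (s := s) hK hk hL1 hg hgi (hN ▸ hgo) (by omega)
  refine ⟨C, ?_, fun c hc => ?_⟩
  · rw [hC, hm]
    push_cast
    rw [← Real.rpow_natCast, ← Real.rpow_mul (by positivity), ← Real.rpow_natCast]
    refine Real.rpow_le_rpow_of_exponent_le (by linarith) ?_
    push_cast
    linarith
  · obtain ⟨h6, h7, h8⟩ := hC2 c hc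
    refine ⟨h6, h7, fun P hP hdv j hj => ?_⟩
    have h9 := h8 P hP hdv
    rw [hN] at h9
    rw [hm] at hj ⊢
    have hjL : j ≤ L + 1 := by
      by_contra h
      have h10 : (Fintype.card K : ℝ) ^ (L + 2) ≤ (Fintype.card K : ℝ) ^ j :=
        pow_le_pow_right₀ (by linarith) (by omega)
      push_cast at hj
      linarith
    rw [← pow_mul, ← pow_add]
    exact pow_le_pow_right₀ (by linarith) (by omega)

end Pool.Agent.Ff3
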