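import Pool.Agent.Ff2.Final

/-!
All members of the progression of small degree are reducible, for every multiple of `wL K L`.
-/

set_option autoImplicit false

namespace Pool.Agent.Ff3

open Polynomial Pool.Agent.Ff2

/-- All members of the progression of small degree are reducible: `w` is any multiple of
`wL K L`. -/
theorem red3 {K : Type} [Field K] [Fintype K] {k : ℕ} (hK : Fintype.card K = 2 ^ k) (hk : Odd k)
    {L : ℕ} {g w : K[X]} (hL1 : 1 ≤ L) (hg : g.Monic) (hgo : Odd g.natDegree) (hwL : wL K L ∣ w)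
    (hw0 : w ≠ 0) (hcop : IsCoprime g w) (hdeg : w.natDegree + L + 1 ≤ g.natDegree) (f : K[X])
    (hf : f.natDegree ≤ 2 * L + 1) : ¬ Irreducible (w ^ 4 + f * g ^ 4) := by
  intro hirr
  have hC : StmtCORE := core (par frob) (lift (exp eul) res) comb witt
  have hL : StmtLCM := lcm
  have hchar : CharP K 2 := red_charP K k hK
  have h20 : ((2 : ℕ) : K[X]) = 0 := CharP.cast_eq_zero K[X] 2
  by_cases hf0 : f = 0
  · rw [hf0, zero_mul, add_zero] at hirr
    exact not_irreducible_pow (by norm_num) hirr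
  by_cases hfd : derivative f = 0
  · obtain ⟨f0, hf0'⟩ := red_square hfd
    have hsq : w ^ 4 + f * g ^ 4 = (w ^ 2 + f0 * g ^ 2) ^ 2 := by
      have : (w ^ 2 + f0 * g ^ 2) ^ 2 = w ^ 4 + f0 ^ 2 * g ^ 4
          + ((2 : ℕ) : K[X]) * (w ^ 2 * (f0 * g ^ 2)) := by
        push_cast
        ring
      rw [this, h20, hf0']
      ring
    rw [hsq] at hirr
    exact not_irreducible_pow (by norm_num) hirr
  -- the degree of the polynomial
  have hfg : (f * g ^ 4).natDegree = f.natDegree + 4 * g.natDegree := by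
    rw [natDegree_mul hf0 (pow_ne_zero _ hg.ne_zero), natDegree_pow]
  have hFdeg : (w ^ 4 + f * g ^ 4).natDegree = f.natDegree + 4 * g.natDegree := by
    rw [natDegree_add_eq_right_of_natDegree_lt, hfg]
    rw [hfg, natDegree_pow]
    omega
  have hfpos : 1 ≤ f.natDegree := by
    by_contra h
    have h0 : f.natDegree = 0 := by omega
    obtain ⟨c, hc⟩ := natDegree_eq_zero.1 h0
    apply hfd
    rw [← hc, derivative_C]
  by_cases hfi : Irreducible f
  · -- the irreducible case
    have hlc : f.leadingCoeff ≠ 0 := leadingCoeff_ne_zero.2 hf0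
    obtain ⟨ν, hν⟩ := red_root (f.leadingCoeff⁻¹)
    have hν4 : ν ^ 4 ≠ 0 := by
      rw [hν]
      exact inv_ne_zero hlc
    have hν0 : ν ≠ 0 := fun h => hν4 (by rw [h]; norm_num)
    have hCν : (C (ν ^ 4) : K[X]) ≠ 0 := C_ne_zero.2 hν4
    have hCu : IsUnit (C (ν ^ 4) : K[X]) := isUnit_C.2 (isUnit_iff_ne_zero.2 hν4)
    set ρ : K[X] := C (ν ^ 4) * f with hρ
    have hρm : ρ.Monic := by
      unfold Monic
      rw [hρ, leadingCoeff_mul, leadingCoeff_C, hν, inv_mul_cancel₀ hlc]
    have hρi : Irreducible ρ := (irreducible_isUnit_mul hCu).2 hfi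
    have hρd : ρ.natDegree = f.natDegree := natDegree_C_mul hν4
    have hρder : derivative ρ ≠ 0 := by
      rw [hρ, derivative_C_mul]
      exact mul_ne_zero hCν hfd
    obtain ⟨f₁, hf₁⟩ := red_square (red_second ρ)
    have hf₁0 : f₁ ≠ 0 := by
      intro h
      apply hρder
      rw [hf₁, h]
      norm_num
    have hdf₁ : 2 * f₁.natDegree ≤ f.natDegree - 1 := by
      have h1 := natDegree_derivative_le ρ
      rw [hf₁, natDegree_pow, hρd] at h1
      exact h1
    have hdvd : f₁ ∣ w := (hL K L f₁ hf₁0 (by omega)).trans hwL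
    obtain ⟨h₀, hh₀⟩ := hdvd
    have hh₀0 : h₀ ≠ 0 := by
      rintro rfl
      exact hw0 (by rw [hh₀, mul_zero])
    have hprod : f₁ * (C ν * h₀) = C ν * w := by
      rw [hh₀]
      ring
    have hhd : (C ν * h₀).natDegree ≤ w.natDegree := by
      rw [natDegree_C_mul hν0, hh₀, natDegree_mul hf₁0 hh₀0]
      omega
    have hcop' : IsCoprime g (f₁ * (C ν * h₀)) := by
      rw [hprod]
      exact (isCoprime_mul_unit_left_right (isUnit_C.2 (isUnit_iff_ne_zero.2 hν0)) g w).2 hcop
    have hmain := hC K k hK hk ρ f₁ g (C ν * h₀) f.natDegree g.natDegree hρm hg hρi hρd rfl hgo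
      hf₁ hcop' (by omega)
    apply hmain
    have heq : (f₁ * (C ν * h₀)) ^ 4 + ρ * g ^ 4 = C (ν ^ 4) * (w ^ 4 + f * g ^ 4) := by
      rw [hprod, hρ, C_pow]
      ring
    rw [heq]
    exact (irreducible_isUnit_mul hCu).2 hirr
  · -- a factor of small degree
    have hfu : ¬ IsUnit f := by
      intro h
      have := natDegree_eq_zero_of_isUnit h
      omega
    obtain ⟨a, b, ha, hb, hab⟩ : ∃ a b : K[X], ¬ IsUnit a ∧ ¬ IsUnit b ∧ f = a * b := by
      by_contra hcon
      apply hfi
      refine ⟨hfu, fun a b hab => ?_⟩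
      by_contra hc
      exact hcon ⟨a, b, fun h => hc (Or.inl h), fun h => hc (Or.inr h), hab⟩
    have key : ∀ a b : K[X], f = a * b → ¬ IsUnit a → a.natDegree ≤ L → False := by
      intro a b hab ha haL
      have ha0 : a ≠ 0 := by
        rintro rfl
        exact hf0 (by rw [hab, zero_mul])
      have h1 : a ∣ w := (hL K L a ha0 haL).trans hwL
      have h2 : a ∣ w ^ 4 + f * g ^ 4 := by
        refine dvd_add (dvd_pow h1 (by norm_num)) ?_
        rw [hab]
        exact ⟨b * g ^ 4, by ring⟩
      obtain ⟨c, hc⟩ := h2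
      rcases hirr.isUnit_or_isUnit hc with h3 | h3
      · exact ha h3
      · have h4 := hFdeg
        have hc0 : c ≠ 0 := h3.ne_zero
        rw [hc, natDegree_mul ha0 hc0, natDegree_eq_zero_of_isUnit h3] at h4
        omega
    have hsum : a.natDegree + b.natDegree = f.natDegree := by
      have ha0 : a ≠ 0 := by
        rintro rfl
        exact hf0 (by rw [hab, zero_mul])
      have hb0 : b ≠ 0 := by
        rintro rfl
        exact hf0 (by rw [hab, mul_zero])
      rw [hab, natDegree_mul ha0 hb0]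
    rcases le_or_gt a.natDegree L with h | h
    · exact key a b hab ha h
    · exact key b a (by rw [hab, mul_comm]) hb (by omega)

end Pool.Agent.Ff3
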