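import Pool.Agent.Ff3.Cls

/-!
The sharp constant, for many classes modulo the fourth power of every irreducible polynomial.
-/

set_option autoImplicit false

namespace Pool.Agent.Ff3

open Polynomial Pool.Agent.Ff2

variable {K : Type} [Field K] [Fintype K]

/-- the choice of the parameters -/
theorem param3 {k : ℕ} (hK : Fintype.card K = 2 ^ k) (hk : Odd k) {ε : ℝ} (hε : 0 < ε)
    (hε1 : ε ≤ 1) (B : ℕ) : ∃ L s : ℕ, 1 ≤ L ∧ B ≤ (wL K L).natDegree + s + L + 1 ∧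
      Odd ((wL K L).natDegree + s + L + 1) ∧
      (1 - ε) * (((Fintype.card K : ℝ) - 1) * (((wL K L).natDegree + s + L + 1 : ℕ) : ℝ)) ^ 2 ≤
        ((Fintype.card K : ℝ) ^ (L + 1)) ^ 2 ∧
      ε / (64 * Fintype.card K) * (4 * (((wL K L).natDegree + s + L + 1 : ℕ) : ℝ)) ≤ s := by
  have hq := FinP.card_two (K := K) k hK hk
  obtain ⟨M, hM1, hM2, hM3⟩ : ∃ M : ℕ, 8 / ε ≤ M ∧ B ≤ M ∧ 1 ≤ M := by
    refine ⟨max (⌈8 / ε⌉₊) (max B 1), ?_, ?_, ?_⟩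
    · exact (Nat.le_ceil _).trans (by exact_mod_cast le_max_left _ _)
    · exact (le_max_left _ _).trans (le_max_right _ _)
    · exact (le_max_right _ _).trans (le_max_right _ _)
  obtain ⟨L, hL⟩ : ∃ L, L = 2 * M := ⟨_, rfl⟩
  have h4 := FinP.even_deg (K := K) deg k hK hk L
  have hDL := (deg K L).2
  refine ⟨L, ?_⟩
  generalize (wL K L).natDegree = D at *
  generalize Fintype.card K = q at *
  have hq' : (2 : ℝ) ≤ q := by exact_mod_cast hq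
  have hDL' : (D : ℝ) * (q - 1) + q = (q : ℝ) ^ (L + 1) := by
    have : ((q - 1 : ℕ) : ℝ) = (q : ℝ) - 1 := by
      rw [Nat.cast_sub (by omega), Nat.cast_one]
    rw [← this]
    exact_mod_cast hDL
  have e1 : ((M : ℝ) + 1) ≤ 2 ^ M := by
    have : M + 1 ≤ 2 ^ M := Nat.lt_two_pow_self
    exact_mod_cast this
  have e2 : ((M : ℝ) + 1) ^ 2 ≤ (q : ℝ) ^ L := by
    calc ((M : ℝ) + 1) ^ 2 ≤ (2 ^ M) ^ 2 := pow_le_pow_left₀ (by positivity) e1 2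
      _ = (2 : ℝ) ^ L := by rw [← pow_mul, hL, mul_comm]
      _ ≤ (q : ℝ) ^ L := pow_le_pow_left₀ (by norm_num) hq' L
  have e4 : 8 ≤ ε * ((M : ℝ) + 1) := by
    have := (div_le_iff₀ hε).1 hM1
    nlinarith
  have e5 : 8 * ((M : ℝ) + 1) ≤ ε * (q : ℝ) ^ L := by
    calc 8 * ((M : ℝ) + 1) ≤ ε * ((M : ℝ) + 1) * ((M : ℝ) + 1) :=
          mul_le_mul_of_nonneg_right e4 (by positivity)
      _ = ε * ((M : ℝ) + 1) ^ 2 := by ring
      _ ≤ ε * (q : ℝ) ^ L := mul_le_mul_of_nonneg_left e2 hε.le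
  have e6 : (L : ℝ) = 2 * M := by rw [hL]; push_cast; ring
  have hM3' : (1 : ℝ) ≤ M := by exact_mod_cast hM3
  have e7 : (L : ℝ) + 1 ≤ ε / 4 * (q : ℝ) ^ L := by
    rw [e6]
    linarith
  have e8 : 16 ≤ ε * (q : ℝ) ^ L := by linarith
  have hx : (q : ℝ) ^ (L + 1) = q * (q : ℝ) ^ L := by ring
  have hy0 : 0 < (q : ℝ) ^ L := by positivity
  have hq0 : (0 : ℝ) < q := by linarith
  -- the degree of the free factor
  obtain ⟨u, hu⟩ : ∃ u : ℕ, u = ⌊ε * (q : ℝ) ^ L / 8⌋₊ := ⟨_, rfl⟩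
  have hu1 : (u : ℝ) ≤ ε * (q : ℝ) ^ L / 8 := by
    rw [hu]
    exact Nat.floor_le (by positivity)
  have hu2 : ε * (q : ℝ) ^ L / 8 < u + 1 := by
    rw [hu]
    exact Nat.lt_floor_add_one _
  refine ⟨2 * u, by omega, by omega, ?_, ?_, ?_⟩
  · obtain ⟨a, ha⟩ := h4
    exact ⟨a + u + M, by omega⟩
  · have h10 : ((q : ℝ) - 1) * ((D + 2 * u + L + 1 : ℕ) : ℝ) =
        (q : ℝ) ^ (L + 1) - q + (q - 1) * (2 * u + (L + 1)) := by
      rw [← hDL']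
      push_cast
      ring
    have h11 : ((q : ℝ) - 1) * (2 * u + (L + 1)) ≤ q * (ε / 2 * (q : ℝ) ^ L) := by
      refine mul_le_mul (by linarith) (by linarith) (by positivity) (by positivity)
    have h12 : 0 ≤ ((q : ℝ) - 1) * ((D + 2 * u + L + 1 : ℕ) : ℝ) :=
      mul_nonneg (by linarith) (by positivity)
    have h13 : ((q : ℝ) - 1) * ((D + 2 * u + L + 1 : ℕ) : ℝ) ≤
        (1 + ε / 2) * (q : ℝ) ^ (L + 1) := by
      rw [h10, hx]
      nlinarith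
    have h14 : (1 - ε) * (1 + ε / 2) ^ 2 ≤ 1 := by nlinarith [mul_pos hε hε, mul_pos (mul_pos hε hε) hε]
    calc (1 - ε) * (((q : ℝ) - 1) * ((D + 2 * u + L + 1 : ℕ) : ℝ)) ^ 2
        ≤ (1 - ε) * ((1 + ε / 2) * (q : ℝ) ^ (L + 1)) ^ 2 :=
          mul_le_mul_of_nonneg_left (pow_le_pow_left₀ h12 h13 2) (by linarith)
      _ = ((1 - ε) * (1 + ε / 2) ^ 2) * ((q : ℝ) ^ (L + 1)) ^ 2 := by ring
      _ ≤ 1 * ((q : ℝ) ^ (L + 1)) ^ 2 := mul_le_mul_of_nonneg_right h14 (by positivity)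
      _ = ((q : ℝ) ^ (L + 1)) ^ 2 := one_mul _
  · have hD : (D : ℝ) ≤ (q : ℝ) ^ (L + 1) := by
      have : (D : ℝ) * 1 ≤ D * ((q : ℝ) - 1) :=
        mul_le_mul_of_nonneg_left (by linarith) (by positivity)
      linarith
    have h10 : ((D + 2 * u + L + 1 : ℕ) : ℝ) ≤ 2 * (q * (q : ℝ) ^ L) := by
      push_cast
      rw [hx] at hD
      have : ε * (q : ℝ) ^ L ≤ q * (q : ℝ) ^ L :=
        mul_le_mul_of_nonneg_right (by linarith) hy0.le
      linarith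
    have h11 : ε / (64 * (q : ℝ)) * (4 * ((D + 2 * u + L + 1 : ℕ) : ℝ)) ≤
        ε / (64 * (q : ℝ)) * (4 * (2 * (q * (q : ℝ) ^ L))) :=
      mul_le_mul_of_nonneg_left (by linarith) (by positivity)
    have h12 : ε / (64 * (q : ℝ)) * (4 * (2 * (q * (q : ℝ) ^ L))) = ε * (q : ℝ) ^ L / 8 := by
      field_simp
      ring
    push_cast at h11 ⊢
    linarith

/-- **The sharp constant.** -/
theorem sharp {k : ℕ} (hK : Fintype.card K = 2 ^ k) (hk : Odd k) {ε : ℝ} (hε : 0 < ε) :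
    ∃ η : ℝ, 0 < η ∧ ∀ B : ℕ, ∃ N : ℕ, B ≤ N ∧ ∀ g : K[X], g.Monic → Irreducible g →
      g.natDegree = N → ∃ C : Finset K[X],
        ((Fintype.card K : ℝ) ^ (g ^ 4).natDegree) ^ η ≤ C.card ∧
        ∀ c ∈ C, c.natDegree < (g ^ 4).natDegree ∧ IsCoprime c (g ^ 4) ∧
          ∀ P : K[X], Irreducible P → g ^ 4 ∣ P - c →
            (1 - ε) * (((Fintype.card K : ℝ) - 1) / 4) ^ 2 *
              (Fintype.card K : ℝ) ^ (g ^ 4).natDegree * ((g ^ 4).natDegree : ℝ) ^ 2 ≤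
                (Fintype.card K : ℝ) ^ P.natDegree := by
  have hq := FinP.card_two (K := K) k hK hk
  have hq' : (2 : ℝ) ≤ Fintype.card K := by exact_mod_cast hq
  obtain ⟨ε', he, hε', hε1⟩ : ∃ ε' : ℝ, ε' ≤ ε ∧ 0 < ε' ∧ ε' ≤ 1 :=
    ⟨min ε 1, min_le_left _ _, lt_min hε one_pos, min_le_right _ _⟩
  refine ⟨ε' / (64 * Fintype.card K), by positivity, fun B => ?_⟩
  obtain ⟨L, s, h1, h2, h3, h4, h5⟩ := param3 hK hk hε' hε1 B
  refine ⟨_, h2, fun g hg hgi hgN => ?_⟩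
  obtain ⟨C, hC, hC2⟩ := cls (s := s) hK hk h1 hg hgi (hgN ▸ h3) (le_of_eq hgN.symm)
  have hm : (g ^ 4).natDegree = 4 * ((wL K L).natDegree + s + L + 1) := by
    rw [natDegree_pow, hgN]
  refine ⟨C, ?_, fun c hc => ?_⟩
  · rw [hC, hm]
    push_cast
    rw [← Real.rpow_natCast, ← Real.rpow_mul (by positivity), ← Real.rpow_natCast]
    refine Real.rpow_le_rpow_of_exponent_le (by linarith) ?_
    push_cast at h5 ⊢
    linarith
  · obtain ⟨h6, h7, h8⟩ := hC2 c hc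
    refine ⟨h6, h7, fun P hP hdv => ?_⟩
    have h9 := h8 P hP hdv
    rw [hgN] at h9
    rw [hm]
    generalize (wL K L).natDegree + s + L + 1 = N at *
    generalize Fintype.card K = q at *
    have h10 : (q : ℝ) ^ (2 * L + 2 + 4 * N) ≤ (q : ℝ) ^ P.natDegree :=
      pow_le_pow_right₀ (by linarith) h9
    refine le_trans ?_ h10
    have h11 : (q : ℝ) ^ (2 * L + 2 + 4 * N) = ((q : ℝ) ^ (L + 1)) ^ 2 * (q : ℝ) ^ (4 * N) := by
      rw [← pow_mul, ← pow_add]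
      congr 1
      ring
    have h12 : (1 - ε) * (((q : ℝ) - 1) * (N : ℝ)) ^ 2 ≤ ((q : ℝ) ^ (L + 1)) ^ 2 :=
      le_trans (mul_le_mul_of_nonneg_right (by linarith) (sq_nonneg _)) h4
    rw [h11]
    calc (1 - ε) * (((q : ℝ) - 1) / 4) ^ 2 * (q : ℝ) ^ (4 * N) * ((4 * N : ℕ) : ℝ) ^ 2
        = (1 - ε) * (((q : ℝ) - 1) * (N : ℝ)) ^ 2 * (q : ℝ) ^ (4 * N) := by
          push_cast
          ring
      _ ≤ ((q : ℝ) ^ (L + 1)) ^ 2 * (q : ℝ) ^ (4 * N) :=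
          mul_le_mul_of_nonneg_right h12 (by positivity)

end Pool.Agent.Ff3
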